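import Mathlib

/-!
# Restriction of semisimple representations to subgroups of finite index
-/

set_option linter.unusedSectionVars false

namespace Pool.Agent.TH116.SS

open Module

noncomputable section

variable {k V Γ : Type*} [Field k] [AddCommGroup V] [Module k V]
  [FiniteDimensional k V] [Group Γ] (ρ : Representation k Γ V)

/-- The subspace is stable under the subgroup. -/
def Stab (N : Subgroup Γ) (U : Submodule k V) : Prop := ∀ s ∈ N, ∀ u ∈ U, ρ s u ∈ U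

/-- Minimal nonzero stable subspaces. -/
def IsMin (N : Subgroup Γ) (S : Submodule k V) : Prop :=
  Stab ρ N S ∧ S ≠ ⊥ ∧ ∀ T, Stab ρ N T → T ≤ S → T = ⊥ ∨ T = S

theorem stab_inf {N : Subgroup Γ} {U W : Submodule k V} (hU : Stab ρ N U) (hW : Stab ρ N W) :
    Stab ρ N (U ⊓ W) := fun s hs u hu => ⟨hU s hs u hu.1, hW s hs u hu.2⟩

theorem stab_sup {N : Subgroup Γ} {U W : Submodule k V} (hU : Stab ρ N U) (hW : Stab ρ N W) :
    Stab ρ N (U ⊔ W) := by
  intro s hs u hu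
  obtain ⟨a, ha, b, hb, rfl⟩ := Submodule.mem_sup.1 hu
  rw [map_add]
  exact Submodule.add_mem _ (Submodule.mem_sup_left (hU s hs a ha))
    (Submodule.mem_sup_right (hW s hs b hb))

theorem exists_min {N : Subgroup Γ} : ∀ (n : ℕ) (U : Submodule k V), finrank k U = n →
    Stab ρ N U → U ≠ ⊥ → ∃ S, IsMin ρ N S ∧ S ≤ U := by
  intro n
  induction n using Nat.strong_induction_on with
  | _ n ih =>
    intro U hn hU hne
    by_cases h : ∀ T, Stab ρ N T → T ≤ U → T = ⊥ ∨ T = U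
    · exact ⟨U, ⟨hU, hne, h⟩, le_rfl⟩
    · push Not at h
      obtain ⟨T, hT, hTU, hT0, hTne⟩ := h
      have hlt : finrank k T < n := by
        rw [← hn]
        exact Submodule.finrank_lt_finrank_of_lt (lt_of_le_of_ne hTU hTne)
      obtain ⟨S, hS, hST⟩ := ih _ hlt T rfl hT hT0
      exact ⟨S, hS, hST.trans hTU⟩

theorem map_map_inv (s : Γ) (U : Submodule k V) : (U.map (ρ s⁻¹)).map (ρ s) = U := by
  rw [← Submodule.map_comp]
  have h1 : (ρ s).comp (ρ s⁻¹) = LinearMap.id := by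
    rw [← Module.End.mul_eq_comp, ← map_mul, mul_inv_cancel, map_one]
    rfl
  rw [h1, Submodule.map_id]

theorem map_stab {N : Subgroup Γ} [hN : N.Normal] (s : Γ) {U : Submodule k V}
    (hU : Stab ρ N U) : Stab ρ N (U.map (ρ s)) := by
  rintro t ht _ ⟨u, hu, rfl⟩
  refine ⟨ρ (s⁻¹ * t * s) u, hU _ ?_ u hu, ?_⟩
  · have h1 := hN.conj_mem t ht s⁻¹
    rwa [inv_inv] at h1
  · rw [← Module.End.mul_apply, ← Module.End.mul_apply, ← map_mul, ← map_mul]
    congr 2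
    group

theorem map_min {N : Subgroup Γ} [N.Normal] (s : Γ) {S : Submodule k V}
    (hS : IsMin ρ N S) : IsMin ρ N (S.map (ρ s)) := by
  obtain ⟨h1, h2, h3⟩ := hS
  have hback : ∀ U : Submodule k V, (U.map (ρ s)).map (ρ s⁻¹) = U := by
    intro U
    have h := map_map_inv ρ s⁻¹ U
    rwa [inv_inv] at h
  refine ⟨map_stab ρ s h1, fun h => h2 ?_, fun T hT hTS => ?_⟩
  · rw [← hback S, h, Submodule.map_bot]
  · have h4 : T.map (ρ s⁻¹) ≤ S := by
      rw [← hback S]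
      exact Submodule.map_mono hTS
    rcases h3 _ (map_stab ρ s⁻¹ hT) h4 with h5 | h5
    · left
      rw [← map_map_inv ρ s T, h5, Submodule.map_bot]
    · right
      rw [← map_map_inv ρ s T, h5]

/-- Clifford's theorem for normal subgroups. -/
theorem compl_normal {N : Subgroup Γ} [N.Normal]
    (h : ∀ U : Submodule k V, Stab ρ ⊤ U → ∃ U', Stab ρ ⊤ U' ∧ IsCompl U U')
    (U : Submodule k V) (hU : Stab ρ N U) : ∃ U', Stab ρ N U' ∧ IsCompl U U' := by
  classical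
  -- the socle
  have htop : sSup {S | IsMin ρ N S} = ⊤ := by
    have hst : Stab ρ ⊤ (sSup {S | IsMin ρ N S}) := by
      intro s _ u hu
      have h1 : (sSup {S | IsMin ρ N S}).map (ρ s) ≤ sSup {S | IsMin ρ N S} := by
        rw [sSup_eq_iSup, Submodule.map_iSup]
        refine iSup_le fun S => ?_
        rw [Submodule.map_iSup]
        refine iSup_le fun hS => ?_
        rw [← sSup_eq_iSup]
        exact le_sSup (map_min ρ s hS)
      exact h1 ⟨u, hu, rfl⟩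
    obtain ⟨C, hC, hcompl⟩ := h _ hst
    by_contra hne
    have hC0 : C ≠ ⊥ := by
      rintro rfl
      apply hne
      have h1 := hcompl.sup_eq_top
      rwa [sup_bot_eq] at h1
    obtain ⟨S, hS, hSC⟩ := exists_min ρ _ C rfl (fun s _ => hC s trivial : Stab ρ N C) hC0
    apply hS.2.1
    rw [eq_bot_iff, ← hcompl.inf_eq_bot]
    exact le_inf (le_sSup hS) hSC
  -- a maximal complement
  have hex : ∃ U', (Stab ρ N U' ∧ Disjoint U U') ∧
      ∀ T, (Stab ρ N T ∧ Disjoint U T) → finrank k T ≤ finrank k U' := by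
    have hP0 : ∃ n, ∃ U', (Stab ρ N U' ∧ Disjoint U U') ∧ finrank k U' = n :=
      ⟨_, ⊥, ⟨fun s _ u hu => by
        rw [Submodule.mem_bot] at hu ⊢
        rw [hu, map_zero], disjoint_bot_right⟩, rfl⟩
    have hbd : ∀ n, (∃ U', (Stab ρ N U' ∧ Disjoint U U') ∧ finrank k U' = n) →
        n ≤ finrank k V := by
      rintro _ ⟨U', -, rfl⟩
      exact Submodule.finrank_le U'
    have h1 := Nat.findGreatest_spec (P := fun n => ∃ U', (Stab ρ N U' ∧ Disjoint U U') ∧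
      finrank k U' = n) (hbd _ hP0.choose_spec) hP0.choose_spec
    obtain ⟨U', hU', hr⟩ := h1
    refine ⟨U', hU', fun T hT => ?_⟩
    rw [hr]
    exact Nat.le_findGreatest (hbd _ ⟨T, hT, rfl⟩) ⟨T, hT, rfl⟩
  obtain ⟨U', ⟨hU', hdis⟩, hmax⟩ := hex
  refine ⟨U', hU', hdis, codisjoint_iff.2 ?_⟩
  by_contra hne
  have hex2 : ∃ S, IsMin ρ N S ∧ ¬ S ≤ U ⊔ U' := by
    by_contra hcon
    push Not at hcon
    exact hne (top_le_iff.1 (htop ▸ sSup_le hcon))
  obtain ⟨S, hS, hSU⟩ := hex2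
  have hd2 : Disjoint S (U ⊔ U') := by
    rw [disjoint_iff]
    rcases hS.2.2 _ (stab_inf ρ hS.1 (stab_sup ρ hU hU')) inf_le_left with h1 | h1
    · exact h1
    · exact absurd (inf_eq_left.1 h1) hSU
  have h2 : Disjoint U (U' ⊔ S) :=
    hdis.disjoint_sup_right_of_disjoint_sup_left hd2.symm
  have h3 := hmax _ ⟨stab_sup ρ hU' hS.1, h2⟩
  have h4 : U' < U' ⊔ S := by
    refine lt_of_le_of_ne le_sup_left fun h => hSU ?_
    have h5 : S ≤ U' := by rw [h]; exact le_sup_right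
    exact h5.trans le_sup_right
  exact absurd (Submodule.finrank_lt_finrank_of_lt h4) (not_lt.2 h3)

theorem exists_proj {N : Subgroup Γ} {U U' : Submodule k V} (hU : Stab ρ N U)
    (hU' : Stab ρ N U') (hc : IsCompl U U') :
    ∃ π : Module.End k V, (∀ v, π v ∈ U) ∧ (∀ u ∈ U, π u = u) ∧
      ∀ s ∈ N, ∀ v, π (ρ s v) = ρ s (π v) := by
  let π : Module.End k V := U.subtype.comp (U.projectionOnto U' hc)
  have h1 : ∀ u ∈ U, π u = u := fun u hu => by
    change ((U.projectionOnto U' hc u : U) : V) = u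
    rw [Submodule.projectionOnto_apply_left hc ⟨u, hu⟩]
  have h2 : ∀ u ∈ U', π u = 0 := fun u hu => by
    change ((U.projectionOnto U' hc u : U) : V) = 0
    rw [Submodule.projectionOnto_apply_right hc ⟨u, hu⟩]
    rfl
  refine ⟨π, fun v => (U.projectionOnto U' hc v).2, h1, fun s hs v => ?_⟩
  have hv : v ∈ U ⊔ U' := by rw [hc.sup_eq_top]; trivial
  obtain ⟨a, ha, b, hb, rfl⟩ := Submodule.mem_sup.1 hv
  rw [map_add, map_add, map_add, h1 _ (hU s hs a ha), h2 _ (hU' s hs b hb), h1 a ha, h2 b hb,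
    map_add, map_zero]

/-- Restrictions of semisimple representations to subgroups of finite index are semisimple. -/
theorem compl_finiteIndex [CharZero k]
    (h : ∀ U : Submodule k V, (∀ s, ∀ u ∈ U, ρ s u ∈ U) →
      ∃ U' : Submodule k V, (∀ s, ∀ u ∈ U', ρ s u ∈ U') ∧ IsCompl U U')
    (Δ : Subgroup Γ) (hΔ : Δ.FiniteIndex) (U : Submodule k V) (hU : ∀ s ∈ Δ, ∀ u ∈ U, ρ s u ∈ U) :
    ∃ U' : Submodule k V, (∀ s ∈ Δ, ∀ u ∈ U', ρ s u ∈ U') ∧ IsCompl U U' := by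
  classical
  let N := Δ.normalCore
  have hNΔ : N ≤ Δ := Δ.normalCore_le
  have hU1 : Stab ρ N U := fun s hs => hU s (hNΔ hs)
  obtain ⟨U1, hU1', hc⟩ := compl_normal ρ (N := N) (by
    intro W hW
    obtain ⟨W', hW', hc⟩ := h W (fun s => hW s trivial)
    exact ⟨W', fun s _ => hW' s, hc⟩) U hU1
  obtain ⟨π, hπ1, hπ2, hπ3⟩ := exists_proj ρ hU1 hU1' hc
  have hfin : Finite (Γ ⧸ N) := inferInstance
  let M : Subgroup Δ := N.subgroupOf Δ
  have hMfin : M.FiniteIndex := inferInstance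
  have hfin' : Finite (Δ ⧸ M) := inferInstance
  have _ : Fintype (Δ ⧸ M) := Fintype.ofFinite _
  -- the conjugates depend only on the class
  have hconj : ∀ s t : Δ, (s : Δ ⧸ M) = (t : Δ ⧸ M) → ∀ v,
      ρ (s : Γ) (π (ρ (s : Γ)⁻¹ v)) = ρ (t : Γ) (π (ρ (t : Γ)⁻¹ v)) := by
    intro s t hst v
    have h1 : (s⁻¹ * t : Δ) ∈ M := QuotientGroup.eq.1 hst
    have h2 : (s : Γ)⁻¹ * t ∈ N := h1
    have h3 := hπ3 _ h2 (ρ (t : Γ)⁻¹ v)
    have h4 : ρ ((s : Γ)⁻¹ * t) (ρ (t : Γ)⁻¹ v) = ρ (s : Γ)⁻¹ v := by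
      rw [← Module.End.mul_apply, ← map_mul]
      congr 2
      group
    rw [h4] at h3
    rw [h3, ← Module.End.mul_apply, ← map_mul]
    congr 2
    group
  let S : Module.End k V := ∑ c : Δ ⧸ M, ρ (c.out : Γ) * π * ρ (c.out : Γ)⁻¹
  have hS : ∀ v, S v = ∑ c : Δ ⧸ M, ρ (c.out : Γ) (π (ρ (c.out : Γ)⁻¹ v)) := by
    intro v
    rw [LinearMap.sum_apply]
    rfl
  have hcard : (Fintype.card (Δ ⧸ M) : k) ≠ 0 := Nat.cast_ne_zero.2 Fintype.card_ne_zero
  let Q : Module.End k V := (Fintype.card (Δ ⧸ M) : k)⁻¹ • S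
  have hQU : ∀ v, Q v ∈ U := by
    intro v
    refine U.smul_mem _ ?_
    rw [hS]
    exact Submodule.sum_mem _ fun c _ => hU _ c.out.2 _ (hπ1 _)
  have hQid : ∀ u ∈ U, Q u = u := by
    intro u hu
    change (Fintype.card (Δ ⧸ M) : k)⁻¹ • S u = u
    rw [hS]
    have h1 : ∀ c : Δ ⧸ M, ρ (c.out : Γ) (π (ρ (c.out : Γ)⁻¹ u)) = u := by
      intro c
      rw [hπ2 _ (hU _ (Δ.inv_mem c.out.2) u hu), ← Module.End.mul_apply, ← map_mul,
        mul_inv_cancel, map_one]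
      rfl
    rw [Finset.sum_congr rfl fun c _ => h1 c, Finset.sum_const, Finset.card_univ,
      ← Nat.cast_smul_eq_nsmul k, smul_smul, inv_mul_cancel₀ hcard, one_smul]
  have hQρ : ∀ t ∈ Δ, ∀ v, Q (ρ t v) = ρ t (Q v) := by
    intro t ht v
    change (Fintype.card (Δ ⧸ M) : k)⁻¹ • S (ρ t v) = ρ t ((Fintype.card (Δ ⧸ M) : k)⁻¹ • S v)
    rw [map_smul, hS, hS, map_sum]
    congr 1
    let τ : Δ := ⟨t, ht⟩
    refine (Fintype.sum_equiv (MulAction.toPerm τ) _ _ fun c => ?_).symm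
    have h1 : ((τ * c.out : Δ) : Δ ⧸ M) = (((τ • c).out : Δ) : Δ ⧸ M) := by
      rw [QuotientGroup.out_eq']
      conv_rhs => rw [← QuotientGroup.out_eq' c]
      rfl
    have h2 := hconj _ _ h1 (ρ t v)
    change ρ t (ρ (c.out : Γ) (π (ρ (c.out : Γ)⁻¹ v))) =
      ρ ((τ • c).out : Γ) (π (ρ ((τ • c).out : Γ)⁻¹ (ρ t v)))
    rw [← h2]
    have h3 : ρ ((τ * c.out : Δ) : Γ)⁻¹ (ρ t v) = ρ (c.out : Γ)⁻¹ v := by
      rw [← Module.End.mul_apply, ← map_mul]
      congr 2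
      change (t * (c.out : Γ))⁻¹ * t = _
      group
    rw [h3, ← Module.End.mul_apply (ρ t), ← map_mul]
    rfl
  refine ⟨LinearMap.ker Q, fun s hs u hu => ?_, ?_, ?_⟩
  · rw [LinearMap.mem_ker] at hu ⊢
    rw [hQρ s hs, hu, map_zero]
  · rw [disjoint_iff, eq_bot_iff]
    rintro u ⟨hu1, hu2⟩
    rw [Submodule.mem_bot, ← hQid u hu1]
    exact hu2
  · rw [codisjoint_iff, eq_top_iff]
    intro v _
    rw [Submodule.mem_sup]
    refine ⟨Q v, hQU v, v - Q v, ?_, by abel⟩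
    rw [LinearMap.mem_ker, map_sub, hQid _ (hQU v), sub_self]

end

end Pool.Agent.TH116.SS
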