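import Mathlib
import Pool.Agent.H204R3.SP.Descent
import Pool.Agent.H204R3.SP.Frob

/-!
# Stable subspaces and characteristic polynomials
-/

set_option linter.unusedSectionVars false

namespace Pool.Agent.TH116.SS

open Module Polynomial TensorProduct Pool.Agent.H204R3.SP

noncomputable section

/-- The characteristic polynomial is multiplicative for stable subspaces. -/
theorem charpoly_mul {k V : Type*} [Field k] [CharZero k] [AddCommGroup V] [Module k V]
    [FiniteDimensional k V] (f : Module.End k V) (W : Submodule k V) (h : ∀ w ∈ W, f w ∈ W) :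
    f.charpoly = (f.restrict h).charpoly * (W.mapQ W f h).charpoly := by
  refine Polynomial.funext fun t => ?_
  have h1 : W ≤ W.comap (algebraMap k (Module.End k V) t - f) := by
    intro w hw
    rw [Submodule.mem_comap, LinearMap.sub_apply]
    exact W.sub_mem (W.smul_mem t hw) (h w hw)
  rw [eval_mul, LinearMap.eval_charpoly, LinearMap.eval_charpoly, LinearMap.eval_charpoly,
    LinearMap.det_eq_det_mul_det W _ h1]
  congr 2
  ext w
  rfl

universe u

variable {k : Type*} [Field k] [CharZero k] {K : Type u} [Field K] [IsAlgClosed K] [Algebra k K]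
  {V : Type*} [AddCommGroup V] [Module k V] [FiniteDimensional k V]

/-- Eigenvectors for distinct eigenvalues form a basis. -/
theorem exists_eigenbasis {W : Type*} [AddCommGroup W]
    [Module K W] [FiniteDimensional K W] (T : Module.End K W) (hsep : T.charpoly.Separable) :
    ∃ (R : Type u) (_ : Fintype R) (val : R → K) (e : Basis R K W), Function.Injective val ∧
      (∀ x, T (e x) = val x • e x) ∧ ∀ a, T.charpoly.IsRoot a → ∃ x, val x = a := by
  classical
  have h0 : T.charpoly ≠ 0 := (LinearMap.charpoly_monic T).ne_zero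
  have hev : ∀ x : {a // a ∈ T.charpoly.roots.toFinset}, T.HasEigenvalue x.1 := by
    intro x
    rw [Module.End.hasEigenvalue_iff_isRoot_charpoly, ← mem_roots h0, ← Multiset.mem_toFinset]
    exact x.2
  choose v hv using fun x => (hev x).exists_hasEigenvector
  have hli := Module.End.eigenvectors_linearIndependent' T
    (fun x : {a // a ∈ T.charpoly.roots.toFinset} => x.1) Subtype.val_injective v hv
  have hcard : Fintype.card {a // a ∈ T.charpoly.roots.toFinset} = finrank K W := by
    rw [Fintype.card_coe, Multiset.toFinset_card_of_nodup (nodup_roots hsep),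
      splits_iff_card_roots.1 (IsAlgClosed.splits _), LinearMap.charpoly_natDegree]
  obtain ⟨e, he⟩ : ∃ e : Basis {a // a ∈ T.charpoly.roots.toFinset} K W, ⇑e = v := by
    by_cases hne : Nonempty {a // a ∈ T.charpoly.roots.toFinset}
    · exact ⟨basisOfLinearIndependentOfCardEqFinrank hli hcard,
        coe_basisOfLinearIndependentOfCardEqFinrank hli hcard⟩
    · have hemp : IsEmpty {a // a ∈ T.charpoly.roots.toFinset} := not_nonempty_iff.1 hne
      have h1 : finrank K W = 0 := by rw [← hcard, Fintype.card_eq_zero_iff]; exact hemp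
      have _ : Subsingleton W := finrank_zero_iff.1 h1
      exact ⟨Basis.empty W, funext fun x => hemp.elim x⟩
  refine ⟨{a // a ∈ T.charpoly.roots.toFinset}, inferInstance, fun x => x.1, e,
    Subtype.val_injective, fun x => ?_, fun a ha => ?_⟩
  · rw [he]
    exact (hv x).apply_eq_smul
  · exact ⟨⟨a, by rw [Multiset.mem_toFinset, mem_roots h0]; exact ha⟩, rfl⟩

/-- Eigenvectors are multiples of the basis vectors. -/
theorem eigen_mul {W : Type*} [AddCommGroup W] [Module K W] {T : Module.End K W}
    {R : Type*} {val : R → K} {e : Basis R K W} (hval : Function.Injective val)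
    (he : ∀ x, T (e x) = val x • e x) {x : R} {v : W} (hv : T v = val x • v) :
    v = e.repr v x • e x := by
  classical
  have h1 : ∀ z, e.repr (T v) z = val z * e.repr v z := by
    intro z
    have h2 : T = e.constr K (fun x => val x • e x) := by
      refine e.ext fun x => ?_
      rw [Basis.constr_basis, he]
    conv_lhs => rw [← e.linearCombination_repr v, Finsupp.linearCombination_apply, Finsupp.sum,
      map_sum, map_sum, Finsupp.finsetSum_apply]
    have h3 : ∀ y ∈ (e.repr v).support, e.repr (T ((e.repr v) y • e y)) z =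
        if y = z then val z * e.repr v z else 0 := by
      intro y _
      rw [map_smul, he, map_smul, map_smul, e.repr_self, Finsupp.smul_apply, Finsupp.smul_apply,
        Finsupp.single_apply, smul_eq_mul, smul_eq_mul]
      by_cases hyz : y = z
      · subst hyz
        rw [if_pos rfl, if_pos rfl]
        ring
      · rw [if_neg hyz, if_neg hyz, mul_zero, mul_zero]
    rw [Finset.sum_congr rfl h3, Finset.sum_ite_eq']
    split_ifs with h4
    · rfl
    · rw [Finsupp.notMem_support_iff.1 h4, mul_zero]
  refine e.repr.injective (Finsupp.ext fun z => ?_)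
  rw [map_smul, Finsupp.smul_apply, e.repr_self, Finsupp.single_apply, smul_eq_mul]
  by_cases hxz : x = z
  · subst hxz
    rw [if_pos rfl, mul_one]
  · rw [if_neg hxz, mul_zero]
    have h2 := h1 z
    rw [hv, map_smul, Finsupp.smul_apply, smul_eq_mul] at h2
    have h3 : (val x - val z) * e.repr v z = 0 := by linear_combination h2
    exact (mul_eq_zero.1 h3).resolve_left fun h => hxz (hval (sub_eq_zero.1 h))

/-- The roots of the characteristic polynomial on an isotropic stable subspace. -/
theorem isotropic_roots (f : Module.End k V) {c : k} (hc : c ≠ 0)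
    (ω : V →ₗ[k] V →ₗ[k] k) (hnd : ∀ u, (∀ v, ω u v = 0) → u = 0) {ε : k}
    (hε : ∀ u v, ω u v = ε * ω v u)
    (hωf : ∀ u v, ω (f u) (f v) = c * ω u v) (hsep : f.charpoly.Separable)
    (W : Submodule k V) (hW : ∀ w ∈ W, f w ∈ W) (hiso : ∀ u ∈ W, ∀ v ∈ W, ω u v = 0)
    {x y : K} (hx : ((f.restrict hW).charpoly.map (algebraMap k K)).IsRoot x)
    (hy : ((f.restrict hW).charpoly.map (algebraMap k K)).IsRoot y) :
    x * y ≠ algebraMap k K c := by
  classical
  intro hxy
  have hnd' : ∀ u, (∀ v, ω v u = 0) → u = 0 := fun u hu => hnd u fun v => by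
    rw [hε, hu, mul_zero]
  let T : Module.End K (K ⊗[k] V) := f.baseChange K
  let ι : (K ⊗[k] W) →ₗ[K] (K ⊗[k] V) := W.subtype.baseChange K
  have hι : Function.Injective ι := by
    have h1 : Function.Injective (LinearMap.lTensor K W.subtype) :=
      Module.Flat.lTensor_preserves_injective_linearMap _ W.injective_subtype
    exact h1
  have hTι : ∀ w, T (ι w) = ι ((f.restrict hW).baseChange K w) := by
    intro w
    induction w with
    | zero => simp only [map_zero]
    | add a b ha hb => rw [map_add, map_add, map_add, map_add, ha, hb]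
    | tmul a w => rfl
  have hTcp : T.charpoly = f.charpoly.map (algebraMap k K) := LinearMap.charpoly_baseChange ..
  have hTsep : T.charpoly.Separable := by
    rw [hTcp]
    exact hsep.map
  obtain ⟨R, _, val, e, hval, he, hroot⟩ := exists_eigenbasis T hTsep
  -- eigenvectors in `W`
  have key : ∀ {x : K}, ((f.restrict hW).charpoly.map (algebraMap k K)).IsRoot x →
      ∃ (z : R) (a : K) (w : K ⊗[k] W), val z = x ∧ a ≠ 0 ∧ ι w = a • e z := by
    intro x hx
    rw [← LinearMap.charpoly_baseChange, ← Module.End.hasEigenvalue_iff_isRoot_charpoly] at hx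
    obtain ⟨w, hw⟩ := hx.exists_hasEigenvector
    have h1 : T (ι w) = x • ι w := by rw [hTι, hw.apply_eq_smul, map_smul]
    have hw0 : ι w ≠ 0 := fun h => hw.2 (hι (by rw [h, map_zero]))
    have h2 : T.HasEigenvalue x :=
      Module.End.hasEigenvalue_of_hasEigenvector ⟨Module.End.mem_eigenspace_iff.2 h1, hw0⟩
    rw [Module.End.hasEigenvalue_iff_isRoot_charpoly] at h2
    obtain ⟨z, hz⟩ := hroot x h2
    have h3 := eigen_mul hval he (x := z) (v := ι w) (by rw [hz]; exact h1)
    refine ⟨z, e.repr (ι w) z, w, hz, fun h4 => hw0 ?_, h3⟩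
    rw [h3, h4, zero_smul]
  obtain ⟨z1, a1, w1, hz1, ha1, h1⟩ := key hx
  obtain ⟨z2, a2, w2, hz2, ha2, h2⟩ := key hy
  -- the form vanishes on `W`
  have hvan : ∀ u v : K ⊗[k] W, bcb K ω (ι u) (ι v) = 0 := by
    intro u v
    induction u with
    | zero => simp only [map_zero, LinearMap.zero_apply]
    | add u u' hu hu' => rw [map_add, map_add, LinearMap.add_apply, hu, hu', add_zero]
    | tmul a u =>
      induction v with
      | zero => simp only [map_zero]
      | add v v' hv hv' => rw [map_add, map_add, hv, hv', add_zero]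
      | tmul c v =>
        change bcb K ω (a ⊗ₜ[k] (u : V)) (c ⊗ₜ[k] (v : V)) = 0
        rw [bcb_tmul, hiso _ u.2 _ v.2, zero_smul]
  have h3 := hvan w1 w2
  rw [h1, h2, map_smul, map_smul, LinearMap.smul_apply, smul_eq_mul, smul_eq_mul] at h3
  have h4 : bcb K ω (e z1) (e z2) = 0 :=
    (mul_eq_zero.1 ((mul_eq_zero.1 h3).resolve_left ha2)).resolve_left ha1
  -- nondegeneracy
  have hTω : ∀ u v : K ⊗[k] V, bcb K ω (T u) (T v) = algebraMap k K c * bcb K ω u v := by
    intro u v
    induction u with
    | zero => simp only [map_zero, LinearMap.zero_apply, mul_zero]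
    | add u u' hu hu' => simp only [map_add, LinearMap.add_apply, hu, hu', mul_add]
    | tmul a u =>
      induction v with
      | zero => simp only [map_zero, mul_zero]
      | add v v' hv hv' => simp only [map_add, hv, hv', mul_add]
      | tmul d v =>
        change bcb K ω (a ⊗ₜ[k] f u) (d ⊗ₜ[k] f v) = _
        rw [bcb_tmul, bcb_tmul, hωf, mul_smul, Algebra.smul_def c]
  have h5 : ∀ z, bcb K ω (e z1) (e z) = 0 := by
    intro z
    by_contra h6
    have h7 := hTω (e z1) (e z)
    rw [he, he, map_smul, map_smul, LinearMap.smul_apply, smul_eq_mul, smul_eq_mul,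
      ← mul_assoc] at h7
    have h8 := mul_right_cancel₀ h6 h7
    have hx0 : x ≠ 0 := by
      intro h9
      rw [h9, zero_mul] at hxy
      exact (map_ne_zero (algebraMap k K)).2 hc hxy.symm
    have h9 : z = z2 := by
      apply hval
      rw [hz2]
      apply mul_left_cancel₀ hx0
      rw [hxy, ← h8, hz1, mul_comm]
    rw [h9] at h6
    exact h6 h4
  apply e.ne_zero z1
  apply bcb_nondeg (Module.finBasis k V) ω hnd' hnd
  intro v
  have h6 : bcb K ω (e z1) = 0 := e.ext fun z => by rw [h5 z, LinearMap.zero_apply]
  have h7 : ∀ u v : K ⊗[k] V, bcb K ω u v = algebraMap k K ε * bcb K ω v u := by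
    intro u v
    induction u with
    | zero => simp only [map_zero, LinearMap.zero_apply, mul_zero]
    | add u u' hu hu' => simp only [map_add, LinearMap.add_apply, hu, hu', mul_add]
    | tmul a u =>
      induction v with
      | zero => simp only [map_zero, LinearMap.zero_apply, mul_zero]
      | add v v' hv hv' => simp only [map_add, LinearMap.add_apply, hv, hv', mul_add]
      | tmul d v => rw [bcb_tmul, bcb_tmul, hε u v, mul_smul, Algebra.smul_def ε, mul_comm a d]
  rw [h7, h6, LinearMap.zero_apply, mul_zero]

end

end Pool.Agent.TH116.SS
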