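import Mathlib
import Pool.Agent.TH116.SS.Det

/-!
# Semisimplicity from one element and the determinants of the stable subspaces
-/

set_option linter.unusedSectionVars false

namespace Pool.Agent.TH116.SS

open Module Polynomial TensorProduct Pool.Agent.H204R3.SP

noncomputable section

universe u

variable {k : Type*} [Field k] [CharZero k] {K : Type u} [Field K] [IsAlgClosed K] [Algebra k K]
  {V : Type*} [AddCommGroup V] [Module k V] [FiniteDimensional k V]

/-- The roots of the characteristic polynomial of the restriction. -/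
theorem exists_roots (f : Module.End k V) (hsep : f.charpoly.Separable)
    (W : Submodule k V) (hW : ∀ w ∈ W, f w ∈ W) (hne : W ≠ ⊥) :
    ∃ S : Finset K, S.Nonempty ∧
      (∀ x ∈ S, ((f.restrict hW).charpoly.map (algebraMap k K)).IsRoot x) ∧
      (∀ x ∈ S, (f.charpoly.map (algebraMap k K)).IsRoot x) ∧ S.card = finrank k W ∧
      ∏ x ∈ S, x = algebraMap k K (LinearMap.det (f.restrict hW)) := by
  classical
  set R := (f.restrict hW).charpoly with hR
  have hmul := charpoly_mul f W hW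
  have hRsep : R.Separable := Separable.of_mul_left (hmul ▸ hsep)
  have hRm : R.Monic := LinearMap.charpoly_monic _
  have hRm' : (R.map (algebraMap k K)).Monic := hRm.map _
  have hdeg : R.natDegree = finrank k W := LinearMap.charpoly_natDegree _
  have hnod : (R.map (algebraMap k K)).roots.Nodup := nodup_roots hRsep.map
  have hsp : (R.map (algebraMap k K)).Splits := IsAlgClosed.splits _
  have hcard : (R.map (algebraMap k K)).roots.toFinset.card = finrank k W := by
    rw [Multiset.toFinset_card_of_nodup hnod, splits_iff_card_roots.1 hsp, natDegree_map, hdeg]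
  have hprod : (R.map (algebraMap k K)).roots.prod =
      algebraMap k K (LinearMap.det (f.restrict hW)) := by
    have h1 := hsp.coeff_zero_eq_prod_roots_of_monic hRm'
    rw [natDegree_map, coeff_map] at h1
    rw [LinearMap.det_eq_sign_charpoly_coeff, ← hdeg, map_mul, ← hR, h1, map_pow, map_neg, map_one,
      ← mul_assoc, ← mul_pow, neg_one_mul, neg_neg, one_pow, one_mul]
  refine ⟨(R.map (algebraMap k K)).roots.toFinset, ?_, ?_, ?_, hcard, ?_⟩
  · rw [← Finset.card_pos, hcard]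
    have h1 : Nontrivial W := Submodule.nontrivial_iff_ne_bot.2 hne
    exact finrank_pos
  · intro x hx
    rw [Multiset.mem_toFinset, mem_roots hRm'.ne_zero] at hx
    exact hx
  · intro x hx
    rw [Multiset.mem_toFinset, mem_roots hRm'.ne_zero] at hx
    rw [hmul, Polynomial.map_mul]
    exact root_mul_right_of_isRoot _ hx
  · have h1 := Finset.prod_val (R.map (algebraMap k K)).roots.toFinset
    rw [Multiset.toFinset_val, Multiset.dedup_eq_self.2 hnod, hprod] at h1
    exact h1.symm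

theorem rho_inv'' {Γ : Type*} [Group Γ] (ρ : Representation k Γ V) (s : Γ) (v : V) :
    ρ s (ρ s⁻¹ v) = v := by
  rw [← Module.End.mul_apply, ← map_mul, mul_inv_cancel, map_one]
  rfl

/-- The main theorem, over an algebraically closed field. -/
theorem exists_compl {Γ : Type*} [Group Γ] (ρ : Representation k Γ V) (χ : Γ →* k)
    (ω : V →ₗ[k] V →ₗ[k] k) (hnd : ∀ u, (∀ v, ω u v = 0) → u = 0) {ε : k}
    (hε : ∀ u v, ω u v = ε * ω v u) (hω : ∀ s u v, ω (ρ s u) (ρ s v) = χ s * ω u v)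
    (F : Set Γ)
    (hdet : ∀ (W : Submodule k V) (hW : ∀ s, ∀ w ∈ W, ρ s w ∈ W), ∀ γ ∈ F, ∃ N, 0 < N ∧
      (LinearMap.det ((ρ γ).restrict (hW γ))) ^ (2 * N) = χ γ ^ (finrank k W * N))
    (hrel : ∀ r, 1 ≤ r → 2 * r ≤ finrank k V → ∃ γ ∈ F, (ρ γ).charpoly.Separable ∧
      ∀ S : Finset K, S.card = r →
      (∀ x ∈ S, ((ρ γ).charpoly.map (algebraMap k K)).IsRoot x) →
      (∀ x ∈ S, ∀ y ∈ S, x * y ≠ algebraMap k K (χ γ)) → ∀ N, 0 < N →
      (∏ x ∈ S, x) ^ (2 * N) ≠ (algebraMap k K (χ γ)) ^ (r * N))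
    (U : Submodule k V) (hU : ∀ s, ∀ u ∈ U, ρ s u ∈ U) :
    ∃ U' : Submodule k V, (∀ s, ∀ u ∈ U', ρ s u ∈ U') ∧ IsCompl U U' := by
  have hχ : ∀ γ, χ γ ≠ 0 := by
    intro γ h
    have h1 : χ γ * χ γ⁻¹ = 1 := by rw [← map_mul, mul_inv_cancel, map_one]
    rw [h, zero_mul] at h1
    exact zero_ne_one h1
  have hrefl : LinearMap.BilinForm.IsRefl ω := by
    intro u v h
    rw [hε, h, mul_zero]
  have hnd' : LinearMap.BilinForm.Nondegenerate ω := ⟨hnd, fun u hu => hnd u fun v => by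
    rw [hε, hu, mul_zero]⟩
  have horth : ∀ s, ∀ u ∈ LinearMap.BilinForm.orthogonal ω U,
      ρ s u ∈ LinearMap.BilinForm.orthogonal ω U := by
    intro s u hu
    rw [LinearMap.BilinForm.mem_orthogonal_iff] at hu ⊢
    intro n hn
    have h1 := hu _ (hU s⁻¹ n hn)
    change ω n (ρ s u) = 0
    change ω (ρ s⁻¹ n) u = 0 at h1
    have h2 := hω s (ρ s⁻¹ n) u
    rw [rho_inv'', h1, mul_zero] at h2
    exact h2
  refine ⟨LinearMap.BilinForm.orthogonal ω U, horth, ?_⟩
  rw [LinearMap.BilinForm.isCompl_orthogonal_iff_disjoint hrefl, disjoint_iff]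
  by_contra hne
  set W := U ⊓ LinearMap.BilinForm.orthogonal ω U with hWdef
  have hW : ∀ s, ∀ w ∈ W, ρ s w ∈ W := fun s w hw => ⟨hU s w hw.1, horth s w hw.2⟩
  have hiso : ∀ u ∈ W, ∀ v ∈ W, ω u v = 0 := fun u hu v hv =>
    (LinearMap.BilinForm.mem_orthogonal_iff.1 hv.2) u hu.1
  have hr1 : 1 ≤ finrank k W := by
    have h1 : Nontrivial W := Submodule.nontrivial_iff_ne_bot.2 hne
    exact finrank_pos
  have hr2 : 2 * finrank k W ≤ finrank k V := by
    have h1 : W ≤ LinearMap.BilinForm.orthogonal ω W := by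
      intro w hw
      rw [LinearMap.BilinForm.mem_orthogonal_iff]
      exact fun n hn => hiso n hn w hw
    have h2 := Submodule.finrank_mono h1
    rw [LinearMap.BilinForm.finrank_orthogonal hnd'] at h2
    have h3 := Submodule.finrank_le W
    omega
  obtain ⟨γ, hγ, hsep, hrelγ⟩ := hrel _ hr1 hr2
  obtain ⟨S, hS1, hS2, hS3, hS4, hS5⟩ := exists_roots (K := K) (ρ γ) hsep _ (hW γ) hne
  obtain ⟨N, hN, hdetN⟩ := hdet _ hW γ hγ
  refine hrelγ S hS4 hS3 (fun x hx y hy => ?_) N hN ?_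
  · exact isotropic_roots (ρ γ) (hχ γ) ω hnd hε (hω γ) hsep _ (hW γ) hiso
      (hS2 x hx) (hS2 y hy)
  · rw [hS5, ← map_pow, hdetN, map_pow]

/-- The roots of `P` have no isotropic relation of length `r`. -/
def NoIsotropicRelation (c : ℚ) (P : ℚ[X]) (r : ℕ) : Prop :=
  ∀ S : Finset ℂ, S.card = r → (∀ x ∈ S, aeval x P = 0) →
    (∀ x ∈ S, ∀ y ∈ S, x * y ≠ c) → ∀ N : ℕ, 0 < N → (∏ x ∈ S, x) ^ (2 * N) ≠ (c : ℂ) ^ (r * N)

theorem transfer {K : Type*} [Field K] [CharZero K] {c : ℚ} {P : ℚ[X]} {r : ℕ} (hP : P ≠ 0)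
    (h : NoIsotropicRelation c P r) (S : Finset K) (hS : S.card = r)
    (hroot : ∀ x ∈ S, (P.map (algebraMap ℚ K)).IsRoot x)
    (hiso : ∀ x ∈ S, ∀ y ∈ S, x * y ≠ algebraMap ℚ K c) (N : ℕ) (hN : 0 < N) :
    (∏ x ∈ S, x) ^ (2 * N) ≠ (algebraMap ℚ K c) ^ (r * N) := by
  classical
  intro hprod
  let A := algebraicClosure ℚ K
  have hAalg : Algebra.IsAlgebraic ℚ A := algebraicClosure.isAlgebraic ℚ K
  let g : A →ₐ[ℚ] ℂ := IsAlgClosed.lift
  have hmem : ∀ x : S, (x : K) ∈ A := by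
    intro x
    have hx := hroot x x.2
    rw [IsRoot, eval_map, ← aeval_def] at hx
    exact mem_algebraicClosure_iff.2 ⟨P, hP, hx⟩
  have hgroot : ∀ x : S, aeval (g ⟨x, hmem x⟩) P = 0 := by
    intro x
    have hx := hroot x x.2
    rw [IsRoot, eval_map, ← aeval_def] at hx
    have h1 : aeval (⟨x, hmem x⟩ : A) P = 0 := by
      apply Subtype.ext
      have h2 := aeval_algHom_apply A.val ⟨x, hmem x⟩ P
      rw [ZeroMemClass.coe_zero, ← hx]
      exact h2.symm
    rw [aeval_algHom_apply, h1, map_zero]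
  have hc : ∀ a : A, (a : K) = algebraMap ℚ K c ↔ g a = (c : ℂ) := by
    intro a
    have h1 : g (algebraMap ℚ A c) = (c : ℂ) := by
      rw [g.commutes]
      rfl
    have h2 : ((algebraMap ℚ A c : A) : K) = algebraMap ℚ K c := rfl
    rw [← h1, ← h2]
    constructor
    · intro h
      rw [Subtype.ext h]
    · intro h
      rw [g.injective h]
  let φ : S → ℂ := fun x => g ⟨x, hmem x⟩
  have hφ : Function.Injective φ := by
    intro x y hxy
    have h1 : (⟨x, hmem x⟩ : A) = ⟨y, hmem y⟩ := g.injective hxy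
    exact Subtype.ext (congrArg (fun a : A => (a : K)) h1)
  refine h (Finset.univ.image φ) ?_ ?_ ?_ N hN ?_
  · rw [Finset.card_image_of_injective _ hφ, Finset.card_univ, Fintype.card_coe, hS]
  · intro y hy
    obtain ⟨x, -, rfl⟩ := Finset.mem_image.1 hy
    exact hgroot x
  · intro a ha b hb
    obtain ⟨x, -, rfl⟩ := Finset.mem_image.1 ha
    obtain ⟨y, -, rfl⟩ := Finset.mem_image.1 hb
    change g ⟨x, hmem x⟩ * g ⟨y, hmem y⟩ ≠ c
    rw [← map_mul, Ne, ← hc]
    exact hiso x x.2 y y.2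
  · rw [Finset.prod_image fun x _ y _ hxy => hφ hxy]
    have h1 : ∏ x : S, φ x = g (∏ x : S, ⟨x, hmem x⟩) := by rw [map_prod]
    have h2 : ((∏ x : S, (⟨x, hmem x⟩ : A) : A) : K) = ∏ x ∈ S, x := by
      rw [SubmonoidClass.coe_finset_prod, Finset.prod_coe_sort S (fun x => x)]
    have h3 : ((∏ x : S, (⟨x, hmem x⟩ : A)) ^ (2 * N) : A) = (algebraMap ℚ A c) ^ (r * N) := by
      apply Subtype.ext
      rw [SubmonoidClass.coe_pow, SubmonoidClass.coe_pow, h2, hprod]
      rfl
    rw [h1, ← map_pow, h3, map_pow, g.commutes]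
    rfl

end

end Pool.Agent.TH116.SS
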